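import Mathlib

namespace Pool.Agent.Results.MP_ffcf77_al.Counter

open Filter Topology
open scoped commutatorElement

/-- The product `s₁ s₂ ⋯ sₙ` of a sequence of steps. -/
def walk {G : Type} [Group G] {n : ℕ} (s : Fin n → G) : G := (List.ofFn s).prod

open Classical in
/-- `p_n(w)`: the `d * n` steps of `d` independent lazy walks of length `n` are independent and
uniform on `S ∪ {1}`; this is the proportion of step arrays on which `w` evaluates to `1`. -/
noncomputable def prob {G : Type} [Group G] (S : Finset G) {d : ℕ} (w : FreeGroup (Fin d))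
    (n : ℕ) : ℝ :=
  (Nat.card {ω : Fin d → Fin n → ↥(insert 1 S : Finset G) //
      FreeGroup.lift (fun i => walk fun j => (ω i j : G)) w = 1} : ℝ) /
    (Nat.card (Fin d → Fin n → ↥(insert 1 S : Finset G)) : ℝ)

abbrev D := Equiv.Perm (Fin 3)

@[ext] structure W where
  f : ℤ → D
  k : ℤ

instance : Mul W := ⟨fun a b => ⟨fun x => a.f x * b.f (x - a.k), a.k + b.k⟩⟩
instance : One W := ⟨⟨fun _ => 1, 0⟩⟩
instance : Inv W := ⟨fun a => ⟨fun x => (a.f (x + a.k))⁻¹, -a.k⟩⟩

@[simp] theorem mul_f (a b : W) (x : ℤ) : (a * b).f x = a.f x * b.f (x - a.k) := rfl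
@[simp] theorem mul_k (a b : W) : (a * b).k = a.k + b.k := rfl
@[simp] theorem one_f (x : ℤ) : (1 : W).f x = 1 := rfl
@[simp] theorem one_k : (1 : W).k = 0 := rfl
@[simp] theorem inv_f (a : W) (x : ℤ) : (a⁻¹).f x = (a.f (x + a.k))⁻¹ := rfl
@[simp] theorem inv_k (a : W) : (a⁻¹).k = -a.k := rfl

instance : Group W := Group.ofLeftAxioms
  (fun a b c => by
    apply W.ext
    · funext x
      simp only [mul_f, mul_k, mul_assoc, sub_sub]
    · simp only [mul_k, add_assoc])
  (fun a => by
    apply W.ext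
    · funext x; simp
    · simp)
  (fun a => by
    apply W.ext
    · funext x; simp
    · simp)

theorem pow_k (a : W) (m : ℕ) : (a ^ m).k = m * a.k := by
  induction m with
  | zero => simp
  | succ m ih => rw [pow_succ, mul_k, ih]; push_cast; ring

def P (g : W) (r : ℤ) : Prop := (∀ x, r < |x| → g.f x = 1) ∧ |g.k| ≤ r

theorem P.mul {g h : W} {r s : ℤ} (hg : P g r) (hh : P h s) : P (g * h) (r + s) := by
  have hs : 0 ≤ s := (abs_nonneg _).trans hh.2
  have h1 := abs_le.1 hg.2
  have h2 := abs_le.1 hh.2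
  refine ⟨fun x hx => ?_, ?_⟩
  · rw [mul_f, hg.1 x (by omega), hh.1 _ ?_, one_mul]
    rcases lt_abs.1 hx with h | h
    · exact lt_abs.2 (Or.inl (by omega))
    · exact lt_abs.2 (Or.inr (by omega))
  · rw [mul_k, abs_le]; omega

theorem P.inv {g : W} {r : ℤ} (hg : P g r) : P g⁻¹ (r + r) := by
  have h1 := abs_le.1 hg.2
  refine ⟨fun x hx => ?_, ?_⟩
  · rw [inv_f, hg.1 _ ?_, inv_one]
    rcases lt_abs.1 hx with h | h
    · exact lt_abs.2 (Or.inl (by omega))
    · exact lt_abs.2 (Or.inr (by omega))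
  · rw [inv_k, abs_le]; omega

theorem P_list (L : List W) (h : ∀ s ∈ L, P s 3) : P L.prod (3 * L.length) := by
  induction L with
  | nil => exact ⟨fun _ _ => rfl, by simp⟩
  | cons a L ih =>
    have := (h a (List.mem_cons_self ..)).mul (ih fun s hs => h s (List.mem_cons_of_mem _ hs))
    rw [List.prod_cons, List.length_cons]
    convert this using 1
    push_cast; ring

theorem good {n : ℤ} {x y z u v : W} (hx : P x (3 * n)) (hy : P y (3 * n)) (hz : P z (3 * n))
    (hu : P u (3 * n)) (hv : n < 10 * v.k) :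
    ⁅⁅x, y⁆, v ^ 360 * ⁅z, u⁆ * (v ^ 360)⁻¹⁆ = 1 := by
  have h1 : P ⁅x, y⁆ _ := ((hx.mul hy).mul hx.inv).mul hy.inv
  have h2 : P ⁅z, u⁆ _ := ((hz.mul hu).mul hz.inv).mul hu.inv
  have k1 : ⁅x, y⁆.k = 0 := by simp [commutatorElement_def]
  have k2 : ⁅z, u⁆.k = 0 := by simp [commutatorElement_def]
  have k3 : (v ^ 360).k = 360 * v.k := pow_k v 360
  generalize ⁅x, y⁆ = c at h1 k1
  generalize ⁅z, u⁆ = e at h2 k2
  generalize v ^ 360 = V at k3
  rw [commutatorElement_eq_one_iff_mul_comm]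
  apply W.ext
  · funext t
    simp only [mul_f, mul_k, inv_f, inv_k, k1, k2, sub_zero, add_zero, add_neg_cancel,
      sub_add_cancel]
    by_cases ht : t ≤ 18 * n
    · rw [h2.1 (t - V.k) (lt_abs.2 (Or.inr (by omega)))]
      simp
    · rw [h1.1 t (lt_abs.2 (Or.inl (by omega)))]
      simp
  · simp only [mul_k, inv_k]; ring

def tt (m : ℤ) : W := ⟨fun _ => 1, m⟩
def lamp (a : D) : W := ⟨fun x => if x = 0 then a else 1, 0⟩
def sa : D := Equiv.swap 0 1
def sb : D := Equiv.swap 1 2

theorem tt_mul (m n : ℤ) : tt m * tt n = tt (m + n) := by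
  apply W.ext
  · funext x; simp [tt]
  · rfl

theorem lamp_sq (a : D) (h : a * a = 1) : lamp a * lamp a = 1 := by
  apply W.ext
  · funext x
    simp only [mul_f, lamp, sub_zero, one_f]
    split_ifs
    · exact h
    · exact one_mul _
  · rfl

def H : Subgroup W := Subgroup.closure {tt (-1), tt 3, lamp sa, lamp sb}

def g1 : H := ⟨tt (-1), Subgroup.subset_closure (by simp)⟩
def g2 : H := ⟨tt 3, Subgroup.subset_closure (by simp)⟩
def g3 : H := ⟨lamp sa, Subgroup.subset_closure (by simp)⟩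
def g4 : H := ⟨lamp sb, Subgroup.subset_closure (by simp)⟩

open Classical in
noncomputable def S : Finset H := {g1, g2, g3, g4}

theorem gen : Submonoid.closure (S : Set H) = ⊤ := by
  set M := Submonoid.closure (S : Set H)
  have m1 : g1 ∈ M := Submonoid.subset_closure (by simp [S])
  have m2 : g2 ∈ M := Submonoid.subset_closure (by simp [S])
  have m3 : g3 ∈ M := Submonoid.subset_closure (by simp [S])
  have m4 : g4 ∈ M := Submonoid.subset_closure (by simp [S])
  have i1 : g1⁻¹ = g2 * g1 * g1 := by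
    rw [inv_eq_iff_mul_eq_one]
    apply Subtype.ext
    change tt (-1) * (tt 3 * tt (-1) * tt (-1)) = 1
    simp only [tt_mul]; rfl
  have i2 : g2⁻¹ = g1 * g1 * g1 := by
    rw [inv_eq_iff_mul_eq_one]
    apply Subtype.ext
    change tt 3 * (tt (-1) * tt (-1) * tt (-1)) = 1
    simp only [tt_mul]; rfl
  have i3 : g3⁻¹ = g3 := by
    rw [inv_eq_iff_mul_eq_one]
    exact Subtype.ext (lamp_sq sa (by decide))
  have i4 : g4⁻¹ = g4 := by
    rw [inv_eq_iff_mul_eq_one]
    exact Subtype.ext (lamp_sq sb (by decide))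
  have key : ∀ x (hx : x ∈ H), (⟨x, hx⟩ : H) ∈ M ∧ (⟨x, hx⟩ : H)⁻¹ ∈ M := by
    intro x hx
    induction hx using Subgroup.closure_induction with
    | mem x hx =>
      rcases hx with rfl | rfl | rfl | rfl
      · exact ⟨m1, by change g1⁻¹ ∈ M; rw [i1]; exact M.mul_mem (M.mul_mem m2 m1) m1⟩
      · exact ⟨m2, by change g2⁻¹ ∈ M; rw [i2]; exact M.mul_mem (M.mul_mem m1 m1) m1⟩
      · exact ⟨m3, by change g3⁻¹ ∈ M; rw [i3]; exact m3⟩
      · exact ⟨m4, by change g4⁻¹ ∈ M; rw [i4]; exact m4⟩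
    | one => exact ⟨M.one_mem, by change (1 : H)⁻¹ ∈ M; rw [inv_one]; exact M.one_mem⟩
    | mul x y hx hy h1 h2 =>
      refine ⟨M.mul_mem h1.1 h2.1, ?_⟩
      change ((⟨x, hx⟩ : H) * ⟨y, hy⟩)⁻¹ ∈ M
      rw [mul_inv_rev]
      exact M.mul_mem h2.2 h1.2
    | inv x hx h1 =>
      refine ⟨h1.2, ?_⟩
      change ((⟨x, hx⟩ : H)⁻¹)⁻¹ ∈ M
      rw [inv_inv]
      exact h1.1
  rw [eq_top_iff]
  rintro ⟨x, hx⟩ -
  exact (key x hx).1

def xx (i : Fin 5) : FreeGroup (Fin 5) := FreeGroup.of i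

def w : FreeGroup (Fin 5) :=
  ⁅⁅xx 0, xx 1⁆, xx 4 ^ 360 * ⁅xx 2, xx 3⁆ * (xx 4 ^ 360)⁻¹⁆

theorem lift_w (g : Fin 5 → H) : ((FreeGroup.lift g w : H) : W) =
    ⁅⁅(g 0 : W), (g 1 : W)⁆, (g 4 : W) ^ 360 * ⁅(g 2 : W), (g 3 : W)⁆ * ((g 4 : W) ^ 360)⁻¹⁆ := by
  simp [w, xx, commutatorElement_def]

theorem not_law : FreeGroup.lift ![g3, g1, g4, g1, 1] w ≠ 1 := by
  intro h
  have h1 := congrArg (fun x : H => (x : W).f 0) h
  simp only [lift_w] at h1
  simp [commutatorElement_def, g1, g3, g4, tt, lamp] at h1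
  revert h1
  decide

noncomputable def T : Finset H :=
  @insert H (Finset H) (@Finset.instInsert H fun a b => Classical.propDecidable (a = b)) 1 S

open Classical in
theorem T_eq : T = insert 1 S := by
  ext x
  simp [T]

open Classical in
theorem sumT (F : H → ℝ) : ∑ s : ↥T, F s =
    F 1 + (F g1 + (F g2 + (F g3 + F g4))) := by
  have kf : ∀ {x y : H}, x = y → (x : W).k = (y : W).k ∧ (x : W).f 0 = (y : W).f 0 := by
    rintro x y rfl; exact ⟨rfl, rfl⟩
  have d1 : ¬ (1 : H) = g1 := fun h => by have := (kf h).1; revert this; decide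
  have d2 : ¬ (1 : H) = g2 := fun h => by have := (kf h).1; revert this; decide
  have d3 : ¬ (1 : H) = g3 := fun h => by have := (kf h).2; revert this; decide
  have d4 : ¬ (1 : H) = g4 := fun h => by have := (kf h).2; revert this; decide
  have d5 : ¬ g1 = g2 := fun h => by have := (kf h).1; revert this; decide
  have d6 : ¬ g1 = g3 := fun h => by have := (kf h).1; revert this; decide
  have d7 : ¬ g1 = g4 := fun h => by have := (kf h).1; revert this; decide
  have d8 : ¬ g2 = g3 := fun h => by have := (kf h).1; revert this; decide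
  have d9 : ¬ g2 = g4 := fun h => by have := (kf h).1; revert this; decide
  have d10 : ¬ g3 = g4 := fun h => by have := (kf h).2; revert this; decide
  rw [Finset.sum_coe_sort T F, T_eq]
  unfold S
  rw [Finset.sum_insert (by simp [d1, d2, d3, d4]), Finset.sum_insert (by simp [d5, d6, d7]),
    Finset.sum_insert (by simp [d8, d9]), Finset.sum_insert (by simp [d10]),
    Finset.sum_singleton]

open Classical in
theorem PT (s : ↥T) : P ((s : H) : W) 3 := by
  obtain ⟨s, hs⟩ := s
  simp only [T_eq, S, Finset.mem_insert, Finset.mem_singleton] at hs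
  have hl : ∀ a, P (lamp a) 3 := fun a =>
    ⟨fun x hx => if_neg (by rintro rfl; simp at hx), by simp [lamp]⟩
  rcases hs with rfl | rfl | rfl | rfl | rfl
  · exact ⟨fun _ _ => rfl, by simp⟩
  · exact ⟨fun _ _ => rfl, by simp [g1, tt]⟩
  · exact ⟨fun _ _ => rfl, by simp [g2, tt]⟩
  · exact hl _
  · exact hl _

noncomputable def phi (s : H) : ℝ := (103 / 100 : ℝ) ^ (1 - 10 * (s : W).k)

theorem phi_list (L : List H) :
    (L.map phi).prod = (103 / 100 : ℝ) ^ ((L.length : ℤ) - 10 * ((L.prod : H) : W).k) := by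
  induction L with
  | nil => simp
  | cons a L ih =>
    rw [List.map_cons, List.prod_cons, ih, phi, ← zpow_add₀ (by norm_num), List.prod_cons,
      List.length_cons, Subgroup.coe_mul, mul_k]
    congr 1
    push_cast; ring

theorem phi_walk {n : ℕ} (s : Fin n → H) :
    ∏ j, phi (s j) = (103 / 100 : ℝ) ^ ((n : ℤ) - 10 * ((walk s : H) : W).k) := by
  have := phi_list (List.ofFn s)
  rw [List.map_ofFn, List.prod_ofFn, List.length_ofFn] at this
  exact this

open Classical in
theorem P_walk {n : ℕ} (s : Fin n → ↥T) :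
    P ((walk fun j => (s j : H) : H) : W) (3 * n) := by
  have := P_list (List.ofFn fun j => ((s j : H) : W)) (by
    intro x hx
    obtain ⟨j, rfl⟩ := List.mem_ofFn.1 hx
    exact PT _)
  rw [List.length_ofFn] at this
  convert this using 1
  unfold walk
  rw [Subgroup.val_list_prod, List.map_ofFn]
  rfl

noncomputable def psi (i : Fin 5) (s : H) : ℝ := if i = 4 then phi s else 1

noncomputable def cc : ℝ := phi 1 + (phi g1 + (phi g2 + (phi g3 + phi g4)))

theorem cc_lt : cc < 5 := by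
  simp only [cc, phi, g1, g2, g3, g4, tt, lamp, Subgroup.coe_one, one_k]
  norm_num

theorem cc_pos : 0 ≤ cc := by
  unfold cc phi
  positivity

theorem prob_eq (v : FreeGroup (Fin 5)) (n : ℕ) : prob S v n =
    (Nat.card {ω : Fin 5 → Fin n → ↥T //
      FreeGroup.lift (fun i => walk fun j => (ω i j : H)) v = 1} : ℝ) /
    (Nat.card (Fin 5 → Fin n → ↥T) : ℝ) := rfl

open Classical in
theorem bound (n : ℕ) : 1 - (cc / 5) ^ n ≤ prob S w n ∧ prob S w n ≤ 1 := by
  have cT : (Fintype.card ↥T : ℝ) = 5 := by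
    have := sumT (fun _ => 1)
    simp only [Finset.sum_const, Finset.card_univ, nsmul_eq_mul, mul_one] at this
    rw [this]; norm_num
  have cO : (Nat.card (Fin 5 → Fin n → ↥T) : ℝ) = (5 ^ n) ^ 5 := by
    rw [Nat.card_eq_fintype_card, Fintype.card_fun, Fintype.card_fun]
    push_cast
    rw [cT]; simp
  let Q : (Fin 5 → Fin n → ↥T) → Prop := fun ω =>
    FreeGroup.lift (fun i => walk fun j => (ω i j : H)) w = 1
  have cG : (Nat.card {ω // Q ω} : ℝ) = ∑ ω, if Q ω then (1 : ℝ) else 0 := by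
    rw [Nat.card_eq_fintype_card, Fintype.card_subtype, Finset.card_filter]
    push_cast
    rfl
  have tot : ∑ ω : Fin 5 → Fin n → ↥T, (1 : ℝ) = (5 ^ n) ^ 5 := by
    rw [← cO, Nat.card_eq_fintype_card, Finset.sum_const, Finset.card_univ, nsmul_eq_mul,
      mul_one]
  have hs : ∑ ω : Fin 5 → Fin n → ↥T, ∏ i, ∏ j, psi i (ω i j) = (5 ^ n) ^ 4 * cc ^ n := by
    have e1 := Finset.prod_univ_sum (fun _ : Fin 5 => (Finset.univ : Finset (Fin n → ↥T)))
      (fun i s => ∏ j, psi i (s j))
    rw [Fintype.piFinset_univ] at e1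
    rw [← e1]
    have e2 : ∀ i, ∑ s : Fin n → ↥T, ∏ j, psi i (s j) = (∑ t : ↥T, psi i t) ^ n := by
      intro i
      have := Finset.prod_univ_sum (fun _ : Fin n => (Finset.univ : Finset ↥T))
        (fun _ t => psi i t)
      rw [Fintype.piFinset_univ] at this
      rw [← this]; simp
    simp only [e2, sumT (psi _), Fin.prod_univ_five]
    have : cc = psi 4 1 + (psi 4 g1 + (psi 4 g2 + (psi 4 g3 + psi 4 g4))) := by
      simp [psi, cc]
    rw [← this]
    simp only [psi, Fin.reduceEq, if_false]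
    have h5 : (1 : ℝ) + (1 + (1 + (1 + 1))) = 5 := by norm_num
    rw [h5]
    ring
  have pt : ∀ ω : Fin 5 → Fin n → ↥T,
      1 - ∏ i, ∏ j, psi i (ω i j) ≤ if Q ω then (1 : ℝ) else 0 := by
    intro ω
    have e : ∏ i, ∏ j, psi i (ω i j) =
        (103 / 100 : ℝ) ^ ((n : ℤ) - 10 * ((walk fun j => (ω 4 j : H) : H) : W).k) := by
      rw [← phi_walk, Fin.prod_univ_five]
      simp [psi]
    rw [e]
    split_ifs with h
    · have : (0 : ℝ) < (103 / 100 : ℝ) ^
        ((n : ℤ) - 10 * ((walk fun j => (ω 4 j : H) : H) : W).k) := by positivity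
      linarith
    · have h1 : ¬ (n : ℤ) < 10 * ((walk fun j => (ω 4 j : H) : H) : W).k := by
        intro h1
        apply h
        apply Subtype.ext
        rw [lift_w]
        exact good (P_walk _) (P_walk _) (P_walk _) (P_walk _) h1
      have := one_le_zpow₀ (a := (103 / 100 : ℝ)) (by norm_num)
        (n := (n : ℤ) - 10 * ((walk fun j => (ω 4 j : H) : H) : W).k) (by omega)
      linarith
  have lo := Finset.sum_le_sum fun ω (_ : ω ∈ Finset.univ) => pt ω
  rw [Finset.sum_sub_distrib, tot, hs, ← cG] at lo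
  have hi : (Nat.card {ω // Q ω} : ℝ) ≤ (5 ^ n) ^ 5 := by
    rw [cG, ← tot]
    exact Finset.sum_le_sum fun ω _ => by split_ifs <;> norm_num
  have p5 : (0 : ℝ) < 5 ^ n := by positivity
  have hp : prob S w n = (Nat.card {ω // Q ω} : ℝ) / (5 ^ n) ^ 5 := by
    rw [← cO]
    exact prob_eq w n
  rw [hp]
  constructor
  · rw [le_div_iff₀ (by positivity), div_pow]
    convert lo using 1
    field_simp
  · rwa [div_le_one (by positivity)]

theorem not_law' : ∃ g : Fin 5 → H, FreeGroup.lift g w ≠ 1 := by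
  have := not_law
  generalize w = v at this
  exact ⟨_, this⟩

theorem gen' : Subgroup.closure (S : Set H) = ⊤ := by
  rw [eq_top_iff]
  intro x _
  have : x ∈ Submonoid.closure (S : Set H) := by rw [gen]; trivial
  exact Subgroup.le_closure_toSubmonoid _ this

theorem lim : Tendsto (prob S w) atTop (𝓝 1) := by
  have h1 : Tendsto (fun n : ℕ => 1 - (cc / 5) ^ n) atTop (𝓝 (1 - 0)) :=
    tendsto_const_nhds.sub (tendsto_pow_atTop_nhds_zero_of_lt_one
      (div_nonneg cc_pos (by norm_num)) (by rw [div_lt_one (by norm_num)]; exact cc_lt))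
  rw [sub_zero] at h1
  exact tendsto_of_tendsto_of_tendsto_of_le_of_le h1 tendsto_const_nhds
    (fun n => (bound n).1) (fun n => (bound n).2)

theorem result : ∃ (d : ℕ) (w : FreeGroup (Fin d)) (G : Type) (_ : Group G) (S : Finset G),
    Subgroup.closure (S : Set G) = ⊤ ∧ Submonoid.closure (S : Set G) = ⊤ ∧
    Tendsto (prob S w) atTop (𝓝 1) ∧ ∃ g : Fin d → G, FreeGroup.lift g w ≠ 1 := by
  have h1 := lim
  have h2 := not_law'
  generalize w = v at h1 h2
  exact ⟨5, v, H, inferInstance, S, gen', gen, h1, h2⟩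

end Pool.Agent.Results.MP_ffcf77_al.Counter
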